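import Pool.Agent.W670.TL.Defs

set_option autoImplicit false

/-!
Project TL, part INJ: the classes killed by `ℓ` embed into those of an extension of degree prime
to `ℓ`.
-/

open NumberField Ideal
open scoped nonZeroDivisors

namespace Pool.Agent.W361.TL

variable {K M : Type} [Field K] [NumberField K] [Field M] [NumberField M] [Algebra K M]

theorem finrank_ringOfIntegers : Module.finrank (𝓞 K) (𝓞 M) = Module.finrank K M :=
  (Algebra.IsAlgebraic.finrank_of_isFractionRing (𝓞 K) K (𝓞 M) M).symm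

theorem map_ne (I : Ideal (𝓞 K)) (hI : I ≠ ⊥) : I.map (algebraMap (𝓞 K) (𝓞 M)) ≠ ⊥ := by
  rw [Ne, Ideal.map_eq_bot_iff_of_injective]
  · exact hI
  · exact FaithfulSMul.algebraMap_injective (𝓞 K) (𝓞 M)

theorem mapmem (I : (Ideal (𝓞 K))⁰) :
    (I : Ideal (𝓞 K)).map (algebraMap (𝓞 K) (𝓞 M)) ∈ (Ideal (𝓞 M))⁰ :=
  mem_nonZeroDivisors_of_ne_zero (map_ne _ (nonZeroDivisors.coe_ne_zero I))

theorem pow_eq_of_map (I J : (Ideal (𝓞 K))⁰)
    (h : ClassGroup.mk0 (⟨_, mapmem (M := M) I⟩ : (Ideal (𝓞 M))⁰) =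
      ClassGroup.mk0 (⟨_, mapmem (M := M) J⟩ : (Ideal (𝓞 M))⁰)) :
    ClassGroup.mk0 I ^ Module.finrank K M = ClassGroup.mk0 J ^ Module.finrank K M := by
  obtain ⟨a, b, ha, hb, hab⟩ := ClassGroup.mk0_eq_mk0_iff.1 h
  have h1 := congrArg (relNorm (𝓞 K)) hab
  rw [map_mul, map_mul, relNorm_singleton, relNorm_singleton] at h1
  simp only at h1
  rw [relNorm_algebraMap, relNorm_algebraMap, finrank_ringOfIntegers] at h1
  rw [← map_pow, ← map_pow, ClassGroup.mk0_eq_mk0_iff]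
  refine ⟨Algebra.intNorm (𝓞 K) (𝓞 M) a, Algebra.intNorm (𝓞 K) (𝓞 M) b, ?_, ?_, ?_⟩
  · exact (Algebra.intNorm_ne_zero (A := 𝓞 K)).2 ha
  · exact (Algebra.intNorm_ne_zero (A := 𝓞 K)).2 hb
  · rw [SubmonoidClass.coe_pow, SubmonoidClass.coe_pow]
    exact h1

theorem map_tors (I : (Ideal (𝓞 K))⁰) (l : ℕ) (h : ClassGroup.mk0 I ^ l = 1) :
    ClassGroup.mk0 (⟨_, mapmem (M := M) I⟩ : (Ideal (𝓞 M))⁰) ^ l = 1 := by
  rw [← map_pow] at h ⊢
  have h1 : (I ^ l : (Ideal (𝓞 K))⁰) = ⟨(I : Ideal (𝓞 K)) ^ l, (I ^ l).2⟩ := rfl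
  rw [h1, ClassGroup.mk0_eq_one_iff] at h
  rw [SubmonoidClass.mk_pow, ClassGroup.mk0_eq_one_iff]
  rw [← Ideal.map_pow]
  obtain ⟨a, ha⟩ := h
  refine ⟨algebraMap (𝓞 K) (𝓞 M) a, ?_⟩
  rw [ha]
  change Ideal.map _ (Ideal.span {a}) = Ideal.span _
  rw [Ideal.map_span, Set.image_singleton]

theorem inj : Pool.Agent.W670.TL.S_INJ := by
  intro K M _ _ _ _ _ l hco
  unfold Pool.Agent.W670.TL.tors
  have hs : Function.Surjective (ClassGroup.mk0 : (Ideal (𝓞 K))⁰ → ClassGroup (𝓞 K)) :=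
    ClassGroup.mk0_surjective
  choose r hr using hs
  refine Nat.card_le_card_of_injective
    (fun x : {x : ClassGroup (𝓞 K) // x ^ l = 1} =>
      (⟨ClassGroup.mk0 (⟨_, mapmem (M := M) (r x.1)⟩ : (Ideal (𝓞 M))⁰),
        map_tors (r x.1) l (by rw [hr]; exact x.2)⟩ : {y : ClassGroup (𝓞 M) // y ^ l = 1})) ?_
  intro x y hxy
  have h1 := pow_eq_of_map (M := M) (r x.1) (r y.1) (congrArg Subtype.val hxy)
  rw [hr, hr] at h1
  apply Subtype.ext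
  have h2 : (x.1 * y.1⁻¹) ^ Module.finrank K M = 1 := by
    rw [mul_pow, inv_pow, h1, mul_inv_cancel]
  have h3 : (x.1 * y.1⁻¹) ^ l = 1 := by
    rw [mul_pow, inv_pow, x.2, y.2, inv_one, mul_one]
  have h4 : orderOf (x.1 * y.1⁻¹) ∣ 1 := by
    rw [← hco]
    exact Nat.dvd_gcd (orderOf_dvd_of_pow_eq_one h2) (orderOf_dvd_of_pow_eq_one h3)
  rw [Nat.dvd_one, orderOf_eq_one_iff] at h4
  exact mul_inv_eq_one.1 h4

end Pool.Agent.W361.TL
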